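import Pool.Agent.H37.MG.Defs

/-!
# Trees are median graphs without squares
-/

set_option autoImplicit false

namespace Pool.Agent.H71.GC

open Pool.Agent.H37.MG

variable {V : Type} {X : SimpleGraph V}

/-- a vertex of a tree has at most one neighbour closer to a given vertex -/
theorem closer_unique (hX : X.IsTree) {u a b c : V} (hab : X.Adj a b) (hac : X.Adj a c)
    (hb : X.dist u a = X.dist u b + 1) (hc : X.dist u a = X.dist u c + 1) : b = c := by
  obtain ⟨p, hp⟩ := hX.connected.exists_walk_length_eq_dist u b
  obtain ⟨q, hq⟩ := hX.connected.exists_walk_length_eq_dist u c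
  have h1 : (p.concat hab.symm).IsPath := by
    apply SimpleGraph.Walk.isPath_of_length_eq_dist
    rw [SimpleGraph.Walk.length_concat, hp, hb]
  have h2 : (q.concat hac.symm).IsPath := by
    apply SimpleGraph.Walk.isPath_of_length_eq_dist
    rw [SimpleGraph.Walk.length_concat, hq, hc]
  have h3 := (hX.existsUnique_path u a).unique h1 h2
  have h4 := congrArg SimpleGraph.Walk.penultimate h3
  rwa [SimpleGraph.Walk.penultimate_concat, SimpleGraph.Walk.penultimate_concat] at h4

/-- the neighbour in the direction of another vertex -/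
theorem exists_closer (hX : X.Connected) {u a : V} (h : u ≠ a) : ∃ b, X.Adj a b ∧ X.dist u a = X.dist u b + 1 := by
  obtain ⟨p, hp⟩ := hX.exists_walk_length_eq_dist a u
  cases p with
  | nil => exact absurd rfl h
  | cons e q =>
    rename_i b
    refine ⟨b, e, ?_⟩
    rw [SimpleGraph.Walk.length_cons] at hp
    have h1 := SimpleGraph.dist_le q
    have h2 : X.dist a u ≤ X.dist a b + X.dist b u := hX.dist_triangle
    rw [SimpleGraph.dist_eq_one_iff_adj.2 e] at h2
    rw [X.dist_comm (u := u) (v := a), X.dist_comm (u := u) (v := b)]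
    omega

/-- the neighbour of `a` closer to `m` is closer to `x` if `m` is between `x` and `a` -/
theorem closer_trans (hX : X.IsTree) {x m a b : V} (hab : X.Adj a b) (h : X.dist m a = X.dist m b + 1)
    (hm : X.dist x m + X.dist m a = X.dist x a) : X.dist x a = X.dist x b + 1 := by
  have h1 : X.dist x b ≤ X.dist x m + X.dist m b := hX.connected.dist_triangle
  rcases hX.dist_eq_dist_add_one_of_adj x hab with h2 | h2
  · exact h2
  · omega

/-- points of a geodesic -/
theorem geod_unique (hX : X.IsTree) {x y : V} : ∀ (k : ℕ) (m m' : V), X.dist y m = k → X.dist y m' = k →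
    X.dist x m + X.dist m y = X.dist x y → X.dist x m' + X.dist m' y = X.dist x y → m = m' := by
  intro k
  induction k with
  | zero =>
    intro m m' h1 h2 _ _
    have e1 := (hX.connected.dist_eq_zero_iff).1 h1
    have e2 := (hX.connected.dist_eq_zero_iff).1 h2
    rw [← e1, ← e2]
  | succ k ih =>
    intro m m' h1 h2 h3 h4
    have hne : y ≠ m := by
      rintro rfl
      rw [SimpleGraph.dist_self] at h1
      omega
    have hne' : y ≠ m' := by
      rintro rfl
      rw [SimpleGraph.dist_self] at h2
      omega
    obtain ⟨w, hw, hw1⟩ := exists_closer hX.connected hne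
    obtain ⟨w', hw', hw1'⟩ := exists_closer hX.connected hne'
    have t1 : X.dist x y ≤ X.dist x w + X.dist w y := hX.connected.dist_triangle
    have t1' : X.dist x y ≤ X.dist x w' + X.dist w' y := hX.connected.dist_triangle
    have c1 := X.dist_comm (u := w) (v := y)
    have c1' := X.dist_comm (u := w') (v := y)
    have c2 := X.dist_comm (u := m) (v := y)
    have c2' := X.dist_comm (u := m') (v := y)
    have d1 := hX.dist_eq_dist_add_one_of_adj x hw
    have d1' := hX.dist_eq_dist_add_one_of_adj x hw'
    have e : w = w' := by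
      refine ih w w' (by omega) (by omega) (by omega) (by omega)
    subst e
    exact closer_unique hX (u := x) hw.symm hw'.symm (by omega) (by omega)

theorem exists_med (hX : X.IsTree) (x y z : V) :
    ∃ m, X.dist x m + X.dist m y = X.dist x y ∧ X.dist y m + X.dist m z = X.dist y z ∧
      X.dist x m + X.dist m z = X.dist x z := by
  obtain ⟨p⟩ := hX.connected.preconnected z x
  induction p with
  | nil =>
    rename_i u
    refine ⟨u, ?_, ?_, ?_⟩
    · rw [SimpleGraph.dist_self, zero_add]
    · rw [SimpleGraph.dist_self, add_zero]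
    · rw [SimpleGraph.dist_self]
  | cons e p ih =>
    rename_i z z' x
    obtain ⟨m, h1, h2, h3⟩ := ih
    have dx := hX.dist_eq_dist_add_one_of_adj x e
    have dy := hX.dist_eq_dist_add_one_of_adj y e
    have dm := hX.dist_eq_dist_add_one_of_adj m e
    have tx : X.dist x z ≤ X.dist x m + X.dist m z := hX.connected.dist_triangle
    have ty : X.dist y z ≤ X.dist y m + X.dist m z := hX.connected.dist_triangle
    by_cases hm : m = z'
    · subst hm
      have c1 := X.dist_comm (u := y) (v := m)
      have c2 := X.dist_comm (u := y) (v := z)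
      have t1 : X.dist x y ≤ X.dist x z + X.dist z y := hX.connected.dist_triangle
      have e1 : X.dist m z = 1 := SimpleGraph.dist_eq_one_iff_adj.2 e.symm
      rcases dx with dx | dx
      · rcases dy with dy | dy
        · exact ⟨m, h1, by omega, by omega⟩
        · exact ⟨z, by omega, by rw [SimpleGraph.dist_self, add_zero], by rw [SimpleGraph.dist_self, add_zero]⟩
      · rcases dy with dy | dy
        · exact ⟨z, by omega, by rw [SimpleGraph.dist_self, add_zero], by rw [SimpleGraph.dist_self, add_zero]⟩
        · omega
    · obtain ⟨w, hw, hw1⟩ := exists_closer hX.connected hm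
      have hwx := closer_trans hX hw hw1 h3
      have hwy := closer_trans hX hw hw1 h2
      by_cases hwz : w = z
      · subst hwz
        exact ⟨m, h1, by omega, by omega⟩
      · have n1 : ¬ X.dist x z' = X.dist x z + 1 := fun h => hwz (closer_unique hX hw e.symm hwx h)
        have n2 : ¬ X.dist y z' = X.dist y z + 1 := fun h => hwz (closer_unique hX hw e.symm hwy h)
        have n3 : ¬ X.dist m z' = X.dist m z + 1 := fun h => hwz (closer_unique hX hw e.symm hw1 h)
        exact ⟨m, h1, by omega, by omega⟩

theorem tree_median (hX : X.IsTree) : Median X := by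
  refine ⟨hX.connected, fun x y z => ?_⟩
  obtain ⟨m, h1, h2, h3⟩ := exists_med hX x y z
  refine ⟨m, ⟨h1, h2, h3⟩, ?_⟩
  rintro m' ⟨h1', h2', h3'⟩
  have c1 := X.dist_comm (u := y) (v := m)
  have c1' := X.dist_comm (u := y) (v := m')
  exact (geod_unique hX (X.dist y m) m m' rfl (by omega) h1 h1').symm

theorem tree_no_cube (hX : X.IsTree) (f : (Fin (1 + 1) → Bool) → V) : ¬ IsCube X (1 + 1) f := by
  rintro ⟨hi, hf⟩
  have a1 : X.Adj (f ![false, false]) (f ![true, false]) := (hf _ _).2 ⟨0, by decide, by decide⟩
  have a2 : X.Adj (f ![false, false]) (f ![false, true]) := (hf _ _).2 ⟨1, by decide, by decide⟩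
  have a3 : X.Adj (f ![true, true]) (f ![true, false]) := (hf _ _).2 ⟨1, by decide, by decide⟩
  have a4 : X.Adj (f ![true, true]) (f ![false, true]) := (hf _ _).2 ⟨0, by decide, by decide⟩
  have n1 : f ![false, false] ≠ f ![true, true] := fun h => by
    have := congrFun (hi h) 0
    simp at this
  have n2 : f ![true, false] ≠ f ![false, true] := fun h => by
    have := congrFun (hi h) 0
    simp at this
  have d1 := SimpleGraph.dist_eq_one_iff_adj.2 a1
  have d2 := SimpleGraph.dist_eq_one_iff_adj.2 a2
  have d3 : X.dist (f ![false, false]) (f ![true, true]) ≠ 0 := fun h => n1 ((hX.connected.dist_eq_zero_iff).1 h)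
  have d4 := hX.dist_eq_dist_add_one_of_adj (f ![false, false]) a3
  exact n2 (closer_unique hX (u := f ![false, false]) a3 a4 (by omega) (by omega))

end Pool.Agent.H71.GC
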