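import Pool.Agent.H93.TR.Pot

/-!
# Gluing affine cocycles along a tree

Step (3) of THEOREM GC (MP_2a547c_gt). Let `L` act on a tree, let `c` be an element of infinite order such that every `g` in `L`
satisfies `g c ^ m g⁻¹ = c ^ n` for some nonzero `m`, `n` with `D g = n / m`, where `D : L →* ℚ`. If every vertex stabiliser `L_v` has
a crossed homomorphism `b` to `ℚ` (twisted by `D`) with `b (c ^ n) = n` for some `c ^ n ≠ 1` in `L_v`, and every element of an edge
stabiliser has a nonzero power which is a power of `c`, then `L` has a crossed homomorphism `β` with `β c = 1`.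
-/

set_option autoImplicit false

namespace Pool.Agent.H71.GC

open Pool.Agent.H93.TR

/-- crossed homomorphisms to `ℚ` on a subgroup -/
def CH {L : Type} [Group L] (D : L →* ℚ) (S : Subgroup L) (b : L → ℚ) : Prop :=
  ∀ g ∈ S, ∀ h ∈ S, b (g * h) = b g + D g * b h

section

variable {L : Type} [Group L] {D : L →* ℚ} {S : Subgroup L} {b : L → ℚ}

theorem D_ne (D : L →* ℚ) (g : L) : D g ≠ 0 := by
  intro h
  have h1 : D g * D g⁻¹ = 1 := by rw [← map_mul, mul_inv_cancel, map_one]
  rw [h, zero_mul] at h1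
  exact zero_ne_one h1

theorem D_inv (D : L →* ℚ) (g : L) : D g⁻¹ = (D g)⁻¹ := by
  have h1 : D g * D g⁻¹ = 1 := by rw [← map_mul, mul_inv_cancel, map_one]
  exact eq_inv_of_mul_eq_one_right h1

theorem D_zpow_one {g : L} (hg : D g = 1) (n : ℤ) : D (g ^ n) = 1 := by
  cases n with
  | ofNat n => rw [Int.ofNat_eq_natCast, zpow_natCast, map_pow, hg, one_pow]
  | negSucc n => rw [zpow_negSucc, D_inv, map_pow, hg, one_pow, inv_one]

theorem CH.one (hb : CH D S b) : b 1 = 0 := by
  have h := hb 1 S.one_mem 1 S.one_mem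
  rw [mul_one, map_one, one_mul] at h
  linarith

theorem CH.npow (hb : CH D S b) {g : L} (hg : g ∈ S) (h1 : D g = 1) (n : ℕ) : b (g ^ n) = n * b g := by
  induction n with
  | zero => rw [pow_zero, hb.one, Nat.cast_zero, zero_mul]
  | succ n ih =>
    rw [pow_succ', hb g hg _ (S.pow_mem hg n), ih, h1]
    push_cast
    ring

theorem CH.inv (hb : CH D S b) {g : L} (hg : g ∈ S) (h1 : D g = 1) : b g⁻¹ = - b g := by
  have h := hb g hg g⁻¹ (S.inv_mem hg)
  rw [mul_inv_cancel, hb.one, h1] at h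
  linarith

theorem CH.zpow (hb : CH D S b) {g : L} (hg : g ∈ S) (h1 : D g = 1) (n : ℤ) : b (g ^ n) = n * b g := by
  cases n with
  | ofNat n =>
    rw [Int.ofNat_eq_natCast, zpow_natCast, hb.npow hg h1]
    push_cast
    rfl
  | negSucc n =>
    have h2 : D (g ^ (n + 1)) = 1 := by rw [map_pow, h1, one_pow]
    rw [zpow_negSucc, hb.inv (S.pow_mem hg _) h2, hb.npow hg h1, Int.cast_negSucc]
    push_cast
    ring

end

/-- **Gluing affine cocycles along a tree.** -/
theorem glue {L V : Type} [Group L] [MulAction L V] {X : SimpleGraph V} (hX : OnTree L X) (D : L →* ℚ) (c : L)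
    (hc0 : ∀ n : ℤ, c ^ n = 1 → n = 0)
    (hc : ∀ g : L, ∃ m n : ℤ, m ≠ 0 ∧ n ≠ 0 ∧ g * c ^ m * g⁻¹ = c ^ n ∧ D g * m = n)
    (hloc : ∀ v : V, ∃ b : L → ℚ, CH D (MulAction.stabilizer L v) b ∧
      ∃ n : ℤ, n ≠ 0 ∧ c ^ n • v = v ∧ b (c ^ n) = n)
    (hedge : ∀ v w : V, X.Adj v w → ∀ g : L, g • v = v → g • w = w → ∃ m n : ℤ, m ≠ 0 ∧ g ^ m = c ^ n) :
    ∃ β : L → ℚ, (∀ g h, β (g * h) = β g + D g * β h) ∧ (∀ (v : V) (n : ℤ), c ^ n • v = v → β (c ^ n) = n) ∧
      β c = 1 := by
  classical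
  -- `D c = 1`
  have hDc : D c = 1 := by
    obtain ⟨m, n, hm, -, h1, h2⟩ := hc c
    have h3 : c ^ (m - n) = 1 := by
      have h4 : c * c ^ m * c⁻¹ = c ^ m := by
        rw [← zpow_one_add, add_comm, zpow_add_one, mul_inv_cancel_right]
      rw [zpow_sub, ← h1, h4, mul_inv_cancel]
    have h5 : m = n := by
      have := hc0 _ h3
      omega
    rw [← h5] at h2
    have h6 : (m : ℚ) ≠ 0 := by exact_mod_cast hm
    exact mul_right_cancel₀ h6 (by rw [h2, one_mul])
  have hDcn : ∀ n : ℤ, D (c ^ n) = 1 := fun n => D_zpow_one hDc n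
  -- values of the local cocycles
  have hval : ∀ (v : V) (b : L → ℚ), CH D (MulAction.stabilizer L v) b →
      (∃ n : ℤ, n ≠ 0 ∧ c ^ n • v = v ∧ b (c ^ n) = n) → ∀ (u : L), u • v = v → D u = 1 →
      ∀ p q : ℤ, u ^ p = c ^ q → p * b u = q := by
    intro v b hb hn u hu hDu p q hpq
    obtain ⟨N, hN, hNv, hbN⟩ := hn
    have h1 : u ^ (p * N) = (c ^ N) ^ q := by
      rw [zpow_mul, hpq, ← zpow_mul, ← zpow_mul, mul_comm]
    have h2 := hb.zpow (g := u) hu hDu (p * N)
    have h3 := hb.zpow (g := c ^ N) hNv (hDcn N) q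
    rw [h1, h3, hbN] at h2
    have h4 : (N : ℚ) ≠ 0 := by exact_mod_cast hN
    push_cast at h2
    have h5 : (p * b u - q) * (N : ℚ) = 0 := by linarith
    have h6 := (mul_eq_zero.1 h5).resolve_right h4
    linarith
  choose b hb hbn using hloc
  -- representatives
  have hrep : ∃ (s : V → L) (r : V → V), (∀ x, s x • r x = x) ∧ ∀ (g : L) (x : V), r (g • x) = r x := by
    have h1 : ∀ x : V, ∃ g : L, g • (Quotient.mk (MulAction.orbitRel L V) x).out = x := by
      intro x
      have h2 := Quotient.exact (Quotient.out_eq (Quotient.mk (MulAction.orbitRel L V) x))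
      obtain ⟨g, hg⟩ := h2
      exact ⟨g⁻¹, by rw [inv_smul_eq_iff]; exact hg.symm⟩
    choose s hs using h1
    refine ⟨s, fun x => (Quotient.mk (MulAction.orbitRel L V) x).out, hs, fun g x => ?_⟩
    have h3 : Quotient.mk (MulAction.orbitRel L V) (g • x) = Quotient.mk (MulAction.orbitRel L V) x :=
      Quotient.sound (show (MulAction.orbitRel L V).r (g • x) x from ⟨g, rfl⟩)
    show (Quotient.mk (MulAction.orbitRel L V) (g • x)).out = _
    rw [h3]
  obtain ⟨s, r, hs, hr⟩ := hrep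
  let kap : L → V → ℚ := fun g x => D (s (g • x)) * b (r x) ((s (g • x))⁻¹ * g * s x)
  have hkap : ∀ g x, kap g x = D (s (g • x)) * b (r x) ((s (g • x))⁻¹ * g * s x) := fun _ _ => rfl
  have hstab : ∀ (g : L) (x : V), ((s (g • x))⁻¹ * g * s x) • r x = r x := by
    intro g x
    rw [mul_smul, mul_smul, hs x, inv_smul_eq_iff]
    conv_lhs => rw [← hs (g • x), hr]
  have hkmul : ∀ (g h : L) (x : V), kap (g * h) x = kap g (h • x) + D g * kap h x := by
    intro g h x
    have e1 := hb (r x) ((s (g • h • x))⁻¹ * g * s (h • x))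
      (by
        have := hstab g (h • x)
        rw [hr] at this
        exact this) ((s (h • x))⁻¹ * h * s x) (hstab h x)
    have e2 : (s (g • h • x))⁻¹ * g * s (h • x) * ((s (h • x))⁻¹ * h * s x) = (s (g • h • x))⁻¹ * (g * h) * s x := by
      group
    have e3 : D (s (g • h • x)) * D ((s (g • h • x))⁻¹ * g * s (h • x)) = D g * D (s (h • x)) := by
      rw [← map_mul, ← map_mul]
      congr 1
      group
    rw [hkap, hkap, hkap, mul_smul, hr, ← e2, e1]
    linear_combination (b (r x) ((s (h • x))⁻¹ * h * s x)) * e3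
  have hkc : ∀ (n : ℤ) (x : V), c ^ n • x = x → kap (c ^ n) x = n := by
    intro n x hx
    have hst := hstab (c ^ n) x
    rw [hkap]
    rw [hx] at hst ⊢
    obtain ⟨m, k, hm, -, h1, h2⟩ := hc (s x)⁻¹
    rw [inv_inv] at h1
    have h3 : ((s x)⁻¹ * c ^ n * s x) ^ m = c ^ (k * n) := by
      have h4 : ∀ (g a : L) (j : ℤ), (g⁻¹ * a * g) ^ j = g⁻¹ * a ^ j * g := by
        intro g a j
        have := conj_zpow (a := g⁻¹) (b := a) (i := j)
        rw [inv_inv] at this
        exact this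
      rw [h4, ← zpow_mul, mul_comm, zpow_mul, ← h4, h1, ← zpow_mul]
    have h5 : D ((s x)⁻¹ * c ^ n * s x) = 1 := by
      rw [map_mul, map_mul, hDcn, mul_one, D_inv, inv_mul_cancel₀ (D_ne D _)]
    have h6 := hval (r x) (b (r x)) (hb (r x)) (hbn (r x)) _ hst h5 m (k * n) h3
    rw [D_inv] at h2
    have h7 : (m : ℚ) ≠ 0 := by exact_mod_cast hm
    have h8 := D_ne D (s x)
    push_cast at h6
    rw [← h2] at h6
    have h9 : (m : ℚ) * (D (s x) * b (r x) ((s x)⁻¹ * c ^ n * s x) - n) = 0 := by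
      have h10 : D (s x) * (m * b (r x) ((s x)⁻¹ * c ^ n * s x)) = D (s x) * ((D (s x))⁻¹ * m * n) := by rw [h6]
      have h11 : D (s x) * ((D (s x))⁻¹ * m * n) = m * n := by
        field_simp
      rw [h11] at h10
      linarith
    have h12 := (mul_eq_zero.1 h9).resolve_left h7
    linarith
  -- edges
  have hD1 : ∀ x y : V, X.Adj x y → ∀ l : L, l • x = x → l • y = y → D l = 1 ∨ D l = -1 := by
    intro x y hxy l hlx hly
    obtain ⟨m, n, hm, hmn⟩ := hedge x y hxy l hlx hly
    have h1 : D (l ^ m) = 1 := by rw [hmn, hDcn]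
    have h2 : ∃ k : ℕ, k ≠ 0 ∧ (D l) ^ k = 1 := by
      refine ⟨m.natAbs, by omega, ?_⟩
      rcases Int.natAbs_eq m with h | h
      · rw [h, zpow_natCast, map_pow] at h1
        exact h1
      · rw [h, zpow_neg, zpow_natCast, D_inv, map_pow, inv_eq_one] at h1
        exact h1
    obtain ⟨k, hk, h3⟩ := h2
    have h4 : |D l| ^ k = 1 := by rw [← abs_pow, h3, abs_one]
    have h5 : |D l| = 1 := (pow_eq_one_iff_of_nonneg (abs_nonneg _) hk).1 h4
    exact (abs_eq (zero_le_one)).1 h5
  have hfix : ∀ (l : L) (x : V), l • x = x → ∀ g, kap (g * l) x = kap g x + D g * kap l x := by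
    intro l x hl g
    rw [hkmul, hl]
  have hCHk : ∀ x : V, CH D (MulAction.stabilizer L x) (fun g => kap g x) := by
    intro x g _ h hh
    exact hfix h x hh g
  have hd0 : ∀ x y : V, X.Adj x y → ∀ l : L, l • x = x → l • y = y → D l = 1 → kap l y - kap l x = 0 := by
    intro x y hxy l hlx hly hl1
    obtain ⟨m, n, hm, hmn⟩ := hedge x y hxy l hlx hly
    have h1 : (m : ℚ) * kap l x = n := by
      have := (hCHk x).zpow (g := l) hlx hl1 m
      simp only [hmn] at this
      rw [← this]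
      apply hkc
      rw [← hmn]
      exact (Subgroup.zpow_mem (MulAction.stabilizer L x) hlx m : _)
    have h2 : (m : ℚ) * kap l y = n := by
      have := (hCHk y).zpow (g := l) hly hl1 m
      simp only [hmn] at this
      rw [← this]
      apply hkc
      rw [← hmn]
      exact (Subgroup.zpow_mem (MulAction.stabilizer L y) hly m : _)
    have h7 : (m : ℚ) ≠ 0 := by exact_mod_cast hm
    have h8 : (m : ℚ) * (kap l y - kap l x) = 0 := by linarith
    exact (mul_eq_zero.1 h8).resolve_left h7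
  have hedge2 : ∀ p : V × V, ∃ t : ℚ, X.Adj p.1 p.2 → ∀ l : L, l • p.1 = p.1 → l • p.2 = p.2 →
      kap l p.2 - kap l p.1 = (1 - D l) * t := by
    rintro ⟨x, y⟩
    by_cases hxy : X.Adj x y
    · by_cases h0 : ∃ l0 : L, l0 • x = x ∧ l0 • y = y ∧ D l0 = -1
      · obtain ⟨l0, h0x, h0y, h0D⟩ := h0
        refine ⟨(kap l0 y - kap l0 x) / 2, fun _ l hlx hly => ?_⟩
        rcases hD1 x y hxy l hlx hly with h1 | h1
        · have := hd0 x y hxy l hlx hly h1
          show kap l y - kap l x = _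
          rw [this, h1]
          ring
        · have h0x' : l0⁻¹ • x = x := by rw [inv_smul_eq_iff, h0x]
          have h0y' : l0⁻¹ • y = y := by rw [inv_smul_eq_iff, h0y]
          have h2 : D (l * l0⁻¹) = 1 := by
            rw [map_mul, D_inv, h1, h0D]
            norm_num
          have h3 := hd0 x y hxy (l * l0⁻¹) (by rw [mul_smul, h0x', hlx]) (by rw [mul_smul, h0y', hly]) h2
          have h4 := hfix l0 x h0x (l * l0⁻¹)
          have h5 := hfix l0 y h0y (l * l0⁻¹)
          rw [inv_mul_cancel_right, h2] at h4 h5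
          show kap l y - kap l x = _
          rw [h1]
          linarith
      · refine ⟨0, fun _ l hlx hly => ?_⟩
        rcases hD1 x y hxy l hlx hly with h1 | h1
        · have := hd0 x y hxy l hlx hly h1
          show kap l y - kap l x = _
          rw [this]
          ring
        · exact absurd ⟨l, hlx, hly, h1⟩ h0
    · exact ⟨0, fun h => absurd h hxy⟩
  choose t ht using hedge2
  have hrep2 : ∃ (s2 : V × V → L) (r2 : V × V → V × V), (∀ x, s2 x • r2 x = x) ∧
      ∀ (g : L) (x : V × V), r2 (g • x) = r2 x := by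
    have h1 : ∀ x : V × V, ∃ g : L, g • (Quotient.mk (MulAction.orbitRel L (V × V)) x).out = x := by
      intro x
      have h2 := Quotient.exact (Quotient.out_eq (Quotient.mk (MulAction.orbitRel L (V × V)) x))
      obtain ⟨g, hg⟩ := h2
      exact ⟨g⁻¹, by rw [inv_smul_eq_iff]; exact hg.symm⟩
    choose s hs using h1
    refine ⟨s, fun x => (Quotient.mk (MulAction.orbitRel L (V × V)) x).out, hs, fun g x => ?_⟩
    have h3 : Quotient.mk (MulAction.orbitRel L (V × V)) (g • x) = Quotient.mk (MulAction.orbitRel L (V × V)) x :=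
      Quotient.sound (show (MulAction.orbitRel L (V × V)).r (g • x) x from ⟨g, rfl⟩)
    show (Quotient.mk (MulAction.orbitRel L (V × V)) (g • x)).out = _
    rw [h3]
  obtain ⟨s2, r2, hs2, hr2⟩ := hrep2
  let T : V × V → ℚ := fun p => kap (s2 p) (r2 p).2 - kap (s2 p) (r2 p).1 + D (s2 p) * t (r2 p)
  have hT : ∀ p, T p = kap (s2 p) (r2 p).2 - kap (s2 p) (r2 p).1 + D (s2 p) * t (r2 p) := fun _ => rfl
  have hadj' : ∀ p : V × V, X.Adj p.1 p.2 → X.Adj (r2 p).1 (r2 p).2 := by
    intro p hp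
    have h1 : (s2 p)⁻¹ • p = r2 p := by rw [inv_smul_eq_iff, hs2]
    have h2 := hX.adj (s2 p)⁻¹ _ _ hp
    rw [← h1]
    exact h2
  have hTs : ∀ (g : L) (p : V × V), X.Adj p.1 p.2 → T (g • p) = kap g p.2 - kap g p.1 + D g * T p := by
    intro g p hp
    have hl : ((s2 (g • p))⁻¹ * g * s2 p) • r2 p = r2 p := by
      rw [mul_smul, mul_smul, hs2 p, inv_smul_eq_iff]
      conv_lhs => rw [← hs2 (g • p), hr2]
    have hl1 : ((s2 (g • p))⁻¹ * g * s2 p) • (r2 p).1 = (r2 p).1 := congrArg Prod.fst hl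
    have hl2 : ((s2 (g • p))⁻¹ * g * s2 p) • (r2 p).2 = (r2 p).2 := congrArg Prod.snd hl
    have h1 := ht (r2 p) (hadj' p hp) _ hl1 hl2
    have hp1 : s2 p • (r2 p).1 = p.1 := congrArg Prod.fst (hs2 p)
    have hp2 : s2 p • (r2 p).2 = p.2 := congrArg Prod.snd (hs2 p)
    have e1 : s2 (g • p) * ((s2 (g • p))⁻¹ * g * s2 p) = g * s2 p := by group
    have h2 := hfix _ _ hl1 (s2 (g • p))
    have h3 := hfix _ _ hl2 (s2 (g • p))
    rw [e1, hkmul] at h2 h3
    rw [hp1] at h2
    rw [hp2] at h3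
    have e2 : D (s2 (g • p)) * D ((s2 (g • p))⁻¹ * g * s2 p) = D g * D (s2 p) := by
      rw [← map_mul, e1, map_mul]
    rw [hT, hT, hr2]
    have e3 : D (s2 (g • p)) * (kap ((s2 (g • p))⁻¹ * g * s2 p) (r2 p).2 - kap ((s2 (g • p))⁻¹ * g * s2 p) (r2 p).1) =
        D (s2 (g • p)) * t (r2 p) - D g * D (s2 p) * t (r2 p) := by
      rw [h1, ← e2]
      ring
    linarith
  let tau : V → V → ℚ := fun x y => (T (x, y) - T (y, x)) / 2
  have htau : ∀ x y, tau x y = (T (x, y) - T (y, x)) / 2 := fun _ _ => rfl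
  have htaus : ∀ (g : L) (x y : V), X.Adj x y → tau (g • x) (g • y) = kap g y - kap g x + D g * tau x y := by
    intro g x y hxy
    have h1 := hTs g (x, y) hxy
    have h2 := hTs g (y, x) hxy.symm
    have h1' : T (g • x, g • y) = kap g y - kap g x + D g * T (x, y) := h1
    have h2' : T (g • y, g • x) = kap g x - kap g y + D g * T (y, x) := h2
    rw [htau, htau, h1', h2']
    ring
  obtain ⟨h, hh⟩ := exists_potential hX.tree (A := Multiplicative ℚ) (fun v w => Multiplicative.ofAdd (tau v w))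
    (by
      intro v w _
      rw [← ofAdd_add, htau, htau]
      have : (T (v, w) - T (w, v)) / 2 + (T (w, v) - T (v, w)) / 2 = 0 := by ring
      rw [this, ofAdd_zero])
  let pt : V → ℚ := fun v => Multiplicative.toAdd (h v)
  have hpt : ∀ v w, X.Adj v w → pt w = pt v + tau v w := by
    intro v w hvw
    show Multiplicative.toAdd (h w) = _
    rw [hh v w hvw, toAdd_mul, toAdd_ofAdd]
  let kp : L → V → ℚ := fun g x => kap g x - pt (g • x) + D g * pt x
  have hkp : ∀ g x, kp g x = kap g x - pt (g • x) + D g * pt x := fun _ _ => rfl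
  have hkadj : ∀ (g : L) (x y : V), X.Adj x y → kp g x = kp g y := by
    intro g x y hxy
    have h1 := htaus g x y hxy
    have h2 := hpt x y hxy
    have h3 := hpt _ _ (hX.adj g x y hxy)
    rw [hkp, hkp, h3, h2, h1]
    ring
  have hkconst : ∀ (g : L) (x y : V), kp g x = kp g y := by
    intro g x y
    obtain ⟨p⟩ := hX.tree.connected.preconnected x y
    induction p with
    | nil => rfl
    | cons hadj p ih => exact (hkadj g _ _ hadj).trans ih
  obtain ⟨x0⟩ := hX.tree.connected.nonempty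
  have hβ : ∀ g k : L, kp (g * k) x0 = kp g x0 + D g * kp k x0 := by
    intro g k
    rw [hkconst g x0 (k • x0), hkp, hkp, hkp, hkmul, mul_smul, map_mul]
    ring
  have hβc : ∀ (v : V) (n : ℤ), c ^ n • v = v → kp (c ^ n) x0 = n := by
    intro v n hv
    rw [hkconst _ x0 v, hkp, hkc n v hv, hv, hDcn]
    ring
  refine ⟨fun g => kp g x0, hβ, hβc, ?_⟩
  have hCHβ : CH D ⊤ (fun g => kp g x0) := fun g _ k _ => hβ g k
  obtain ⟨N, hN, hNv, -⟩ := hbn x0
  have h1 := hCHβ.zpow (g := c) trivial hDc N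
  have h2 := hβc x0 N hNv
  rw [h2] at h1
  have h7 : (N : ℚ) ≠ 0 := by exact_mod_cast hN
  have h8 : (N : ℚ) * (kp c x0 - 1) = 0 := by
    have : (N : ℚ) = N * kp c x0 := h1
    linarith
  have h9 := (mul_eq_zero.1 h8).resolve_left h7
  show kp c x0 = 1
  linarith

end Pool.Agent.H71.GC
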